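import Pool.Agent.Y116.BS.Main

/-!
# The Beilinson–Soulé vanishing conjecture and rigidity in degree one

Let `H^i(X, ℚ(n))` be rational motivic cohomology, in the form of its known formal properties
(`IsMotivicCohomology`: functoriality, continuity, injectivity for extensions of fields, the
localisation sequence of the affine line over a field, Gersten's spectral sequence, weight zero and
Borel's theorem for `ℚ`).

The Beilinson–Soulé vanishing conjecture `H^i(X, ℚ(n)) = 0` for all smooth separated schemes `X` of
finite type over all fields, all `i ≤ 0` and all `n ≥ 1`, is equivalent to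

* the vanishing for all fields, `i ≤ 0` and `n ≥ 1`;
* the vanishing for all fields in the degree `i = 0` only;
* rigidity in degree one for the rational function fields over the prime fields:
  `H^1(k(t_1, …, t_r), ℚ(n)) = H^1(k, ℚ(n))` for `k = ℚ` and `k = 𝔽_p`, all `r` and `n ≥ 2`, that is,
  `K_{2n-1}(k(t_1, …, t_r))_ℚ^{(n)} = K_{2n-1}(k)_ℚ^{(n)}`.

So all degrees and all fields are controlled by one degree and the rational function fields over
the prime fields. (A finitely generated field `K` is the residue field of a closed point of the
affine line over a rational function field `E`, by a separating transcendence basis and a primitive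
element; so its cohomology in degree `i` is a quotient of the one of `E(t)` in degree `i + 1`.)
-/

set_option autoImplicit false

open CategoryTheory AlgebraicGeometry

namespace Pool.Agent.Results.MP_e2821c_ag.RigidityInDegreeOne

open Pool.Agent.Y116.BS

theorem result (M : MotivicCohomology) (hM : IsMotivicCohomology M) :
    -- smooth schemes over fields
    ((∀ (k : Type) [Field k] (X : Scheme.{0}) (f : X ⟶ pt k), Sm f →
      ∀ (i : ℤ) (n : ℕ), i ≤ 0 → 1 ≤ n → Van M X i n) ↔ Rigidity M) ∧
    -- fields
    ((∀ (F : Type) [Field F] (i : ℤ) (n : ℕ), i ≤ 0 → 1 ≤ n → Van M (pt F) i n) ↔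
      Rigidity M) ∧
    -- fields, degree zero
    ((∀ (F : Type) [Field F] (n : ℕ), 1 ≤ n → Van M (pt F) 0 n) ↔ Rigidity M) :=
  strong hM

end Pool.Agent.Results.MP_e2821c_ag.RigidityInDegreeOne
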